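import Pool.Agent.ANI.Stmts
import Pool.Agent.Helper88_LQF.FRB

/-!
# LAM: the sum of the fourth powers of the free resolvent, without the logarithm of the side
-/

set_option autoImplicit false

open MeasureTheory ProbabilityTheory Function Filter

open scoped ENNReal BigOperators Topology NNReal ComplexOrder Matrix

noncomputable section

namespace Pool.Agent.ANI.H54

open Pool.Agent.Anderson hiding box mem_box card_box
open Pool.Agent.Loc Pool.Agent.Mob Pool.Agent.Helper54.Bal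
  Pool.Agent.Helper96.EXP Pool.Agent.BED
open Pool.Agent.LE Pool.Agent.LE.MN Pool.Agent.LE.CL Pool.Agent.LE.IR Pool.Agent.LE.QD
  Pool.Agent.LE.QF.H88

theorem lam (sbl : SblStmt) (dsu : QD.DsuStmt) (ral : QD.RalStmt) : LamStmt := by
  intro d hd
  obtain ⟨Cs, hCs, hs⟩ := sbl d hd
  obtain ⟨Cd, hCd, hdd⟩ := dsu d hd
  have hCC : 1 ≤ Cs * Cd := one_le_mul_of_one_le_of_one_le hCs hCd
  refine ⟨80 + (Cs * Cd) ^ 2, by nlinarith, fun M _ z hz hz1 hM x => ?_⟩
  obtain ⟨-, hsymm, -, -, -, -, -, -, -, -, hfree, -⟩ := ral d M (0 : Tor d M → ℝ) z hz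
  set w : ℝ := z.im with hw
  set C : ℝ := 80 + (Cs * Cd) ^ 2 with hC
  have hw2 : 0 < w ^ 2 := by positivity
  have hC80 : 80 ≤ C := by
    rw [hC]
    nlinarith
  have hMw : C ≤ M * w ^ 2 := by rwa [div_le_iff₀ hw2] at hM
  have hwsq : w ^ 2 ≤ 1 := pow_le_one₀ hz.le hz1
  have hM0 : (0 : ℝ) ≤ M := Nat.cast_nonneg M
  have hM1 : (80 : ℝ) ≤ M := by nlinarith
  have hCs2 : Cs ≤ C := by
    rw [hC]
    nlinarith
  have hCd2 : Cd ≤ C := by
    rw [hC]
    nlinarith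
  have h1 := hs M z.re w hz hz1 ((div_le_div_of_nonneg_right hCs2 hw2.le).trans hM)
  have hCdM : Cd / w ≤ M := by
    refine le_trans ?_ hM
    have : Cd / w ≤ C / w := div_le_div_of_nonneg_right hCd2 hz.le
    refine this.trans ?_
    apply div_le_div_of_nonneg_left (by linarith) hw2
    nlinarith
  obtain ⟨-, h2⟩ := hdd M z.re w hz hz1 hCdM
  -- the function
  set f : Tor d M → ℂ := fun y => rs (0 : Tor d M → ℝ) z x y with hf
  have hft : ∀ p, ft f p = (starRingEnd ℂ) (ec p x) / ((es p : ℂ) - z) := by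
    obtain ⟨g, hg⟩ := Pool.Agent.LE.IR.H54.surj
      (fun p : Tor d M => (starRingEnd ℂ) (ec p x) / ((es p : ℂ) - z))
    have hgf : g = f := by
      funext y
      rw [Pool.Agent.LE.IR.H54.inversion g y, hf]
      simp only
      rw [hsymm x y, hfree y x]
      congr 1
      refine Finset.sum_congr rfl fun p _ => ?_
      rw [hg p, Pool.Agent.LE.IR.H54.ec_sub]
      ring
    rw [← hgf]
    exact hg
  have hmt : ∀ p : Tor d M, ‖(es p : ℂ) - z‖ = Real.sqrt ((es p - z.re) ^ 2 + w ^ 2) := by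
    intro p
    rw [Complex.norm_def, Complex.normSq_apply]
    congr 1
    simp only [Complex.sub_re, Complex.ofReal_re, Complex.sub_im, Complex.ofReal_im]
    rw [hw]
    ring
  have hqn : qn z.re w f =
      pm (fun p : Tor d M => (Real.sqrt ((es p - z.re) ^ 2 + w ^ 2))⁻¹) := by
    unfold qn pm
    congr 1
    refine Finset.sum_congr rfl fun p _ => ?_
    beta_reduce
    rw [hft p, norm_div, RCLike.norm_conj, Pool.Agent.LE.IR.H54.ec_norm, hmt p]
    have h3 : mt (2 * d - z.re) w p = Real.sqrt ((es p - z.re) ^ 2 + w ^ 2) := by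
      unfold Pool.Agent.LE.IR.mt es
      congr 1
      ring
    rw [h3]
    have h4 : 0 < Real.sqrt ((es p - z.re) ^ 2 + w ^ 2) := Real.sqrt_pos.2 (by positivity)
    field_simp
  have h3 := h1 f
  rw [hqn] at h3
  have hlogw0 : 0 ≤ Real.log (1 / w) := by
    apply Real.log_nonneg
    rw [le_div_iff₀ hz]
    linarith
  have h4 : n4 f ≤ Cs * Cd * w ^ (-(1 / 3 : ℝ)) * (1 + Real.log (1 / w)) ^ 3 := by
    calc n4 f ≤ Cs * w ^ (-(1 / 3 : ℝ)) * (1 + Real.log (1 / w)) ^ 2 *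
          (Cd * (1 + Real.log (1 / w))) := h3.trans (by gcongr)
      _ = _ := by ring
  have h5 : (0 : ℝ) ≤ ∑ y, ‖f y‖ ^ 4 := Finset.sum_nonneg fun y _ => by positivity
  have h6 : ∑ y, ‖f y‖ ^ 4 ≤
      (Cs * Cd * w ^ (-(1 / 3 : ℝ)) * (1 + Real.log (1 / w)) ^ 3) ^ 2 := by
    have h7 : (n4 f) ^ 2 = ∑ y, ‖f y‖ ^ 4 := Real.sq_sqrt h5
    rw [← h7]
    have h8 : 0 ≤ n4 f := Real.sqrt_nonneg _
    gcongr
  refine h6.trans ?_
  have h7 : (w ^ (-(1 / 3 : ℝ))) ^ 2 = w ^ (-(2 / 3 : ℝ)) := by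
    rw [← Real.rpow_natCast, ← Real.rpow_mul hz.le]
    norm_num
  calc (Cs * Cd * w ^ (-(1 / 3 : ℝ)) * (1 + Real.log (1 / w)) ^ 3) ^ 2 =
      (Cs * Cd) ^ 2 * (w ^ (-(1 / 3 : ℝ))) ^ 2 * (1 + Real.log (1 / w)) ^ 6 := by ring
    _ = (Cs * Cd) ^ 2 * w ^ (-(2 / 3 : ℝ)) * (1 + Real.log (1 / w)) ^ 6 := by rw [h7]
    _ ≤ C * w ^ (-(2 / 3 : ℝ)) * (1 + Real.log (1 / w)) ^ 6 := by
      have h8 : (Cs * Cd) ^ 2 ≤ C := by
        rw [hC]
        linarith
      gcongr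

end Pool.Agent.ANI.H54
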