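import Pool.Agent.Helper70_LQD.SOB
import Pool.Agent.ANI.Stmts

/-!
# SBL: the Sobolev inequality without the logarithm of the side of the torus
-/

set_option autoImplicit false

open MeasureTheory ProbabilityTheory Function Filter

open scoped ENNReal BigOperators Topology NNReal ComplexOrder Matrix

noncomputable section

namespace Pool.Agent.ANI.H54

open Pool.Agent.Anderson hiding box mem_box card_box
open Pool.Agent.Loc Pool.Agent.Mob Pool.Agent.Helper54.Bal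
  Pool.Agent.Helper96.EXP Pool.Agent.BED
open Pool.Agent.LE Pool.Agent.LE.MN Pool.Agent.LE.CL Pool.Agent.LE.IR Pool.Agent.LE.QD
  Pool.Agent.LE.QD.H70

variable {d M : ℕ} [NeZero M]

/-- the value at one scale -/
theorem scale2 {CI Cb : ℝ} (hCI : 1 ≤ CI) (hCb : 1 ≤ Cb)
    (hI : ∀ (X : Type) [Fintype X] (T : X → X → ℂ) (f : X → ℂ) (A B : ℝ), 0 ≤ A → 0 ≤ B →
    (∀ x y, ‖T x y‖ ≤ B) →
    (∀ g h : X → ℂ, ‖∑ x, ∑ y, (starRingEnd ℂ) (g x) * (T x y * h y)‖ ≤
      A * (Real.sqrt (n2 g) * Real.sqrt (n2 h))) →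
      ‖∑ x, ∑ y, (starRingEnd ℂ) (f x) * (T x y * f y)‖ ≤
        CI * Real.sqrt (A * B) * (∑ x, ‖f x‖ ^ (4 / 3 : ℝ)) ^ (3 / 2 : ℝ))
    (hb : ∀ (T : ℝ) (y : Tor d M), 1 ≤ T → 2 * T ≤ M / 40 → ∫ t in T..2 * T,
        (‖(∑ p, ec p y * Complex.exp (Complex.I * ((t * es p : ℝ) : ℂ))) / (M : ℂ) ^ d‖ +
          ‖(∑ p, ec p y * Complex.exp (-(Complex.I * ((t * es p : ℝ) : ℂ)))) / (M : ℂ) ^ d‖) ≤
        Cb * T ^ (-(1 / 3 : ℝ)) * (1 + Real.log T))
    {K : ℕ} {L : ℝ} (hK : (2 : ℝ) ^ K ≤ M / 40) (hL : Real.log ((2 : ℝ) ^ K) ≤ L)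
    (E : ℝ) {a : ℝ} (ha : 0 < a) (haK : 1 ≤ a ^ 2 * 2 ^ K) (g : Tor d M → ℂ) :
    pm (fun p => Pool.Agent.Anderson.ker a (es p - E) * ‖ft g p‖ ^ 2) ≤
      2 * n2 g + K * (CI * (Cb * a ^ (-(1 / 3 : ℝ)) * (1 + L)) *
        (∑ x, ‖g x‖ ^ (4 / 3 : ℝ)) ^ (3 / 2 : ℝ)) := by
  have hG : 0 ≤ (∑ x, ‖g x‖ ^ (4 / 3 : ℝ)) ^ (3 / 2 : ℝ) :=
    Real.rpow_nonneg (Finset.sum_nonneg fun x _ => by positivity) _
  set φ : ℝ → ℝ := fun t => Real.exp (-(a * t)) * ph E t g with hφ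
  have hφc : Continuous φ := (by fun_prop : Continuous fun t : ℝ => Real.exp (-(a * t))).mul
    (ph_cont E g)
  set T₀ : ℝ := 2 ^ K with hT₀
  have hT₀1 : 1 ≤ T₀ := one_le_pow₀ (by norm_num)
  have hM40 : (1 : ℝ) ≤ M / 40 := hT₀1.trans hK
  have hM1 : (1 : ℝ) ≤ M := by linarith
  -- Laplace
  have h1 : pm (fun p => Pool.Agent.Anderson.ker a (es p - E) * ‖ft g p‖ ^ 2) ≤
      (∫ t in (0 : ℝ)..T₀, φ t) + Real.exp (-(a * T₀)) / a * n2 g := by
    have h2 : ∫ t in (0 : ℝ)..T₀, φ t =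
        pm fun p => (∫ t in (0 : ℝ)..T₀, Real.exp (-(a * t)) * Real.cos (t * (es p - E))) *
          ‖ft g p‖ ^ 2 := by
      unfold pm
      have h3 : ∀ p : Tor d M, (∫ t in (0 : ℝ)..T₀, Real.exp (-(a * t)) *
          Real.cos (t * (es p - E))) * ‖ft g p‖ ^ 2 =
          ∫ t in (0 : ℝ)..T₀, Real.exp (-(a * t)) * Real.cos (t * (es p - E)) *
            ‖ft g p‖ ^ 2 := fun p => (intervalIntegral.integral_mul_const _ _).symm
      rw [Finset.sum_congr rfl fun p _ => h3 p, ← intervalIntegral.integral_finsetSum,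
        ← intervalIntegral.integral_div]
      · refine intervalIntegral.integral_congr fun t _ => ?_
        simp only [hφ]
        unfold ph pm
        rw [← mul_div_assoc, Finset.mul_sum]
        congr 1
        exact Finset.sum_congr rfl fun p _ => by ring
      · intro p _
        exact Continuous.intervalIntegrable (by fun_prop) _ _
    rw [h2]
    have h4 : n2 g = pm fun p => ‖ft g p‖ ^ 2 := Pool.Agent.LE.IR.H54.parseval1 g
    rw [h4, ← pm_cmul]
    have h5 : ∀ F G : Tor d M → ℝ, pm F + pm G = pm fun p => F p + G p := by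
      intro F G
      unfold pm
      rw [Finset.sum_add_distrib, add_div]
    rw [h5]
    refine pm_mono fun p => ?_
    have h6 := laplace_le ha (es p - E) T₀
    rw [← add_mul]
    gcongr
  -- tail
  have h2 : Real.exp (-(a * T₀)) / a ≤ 1 := by
    rw [div_le_one ha]
    have h3 : Real.exp (-(a * T₀)) * Real.exp (a * T₀) = 1 := by
      rw [← Real.exp_add, neg_add_cancel, Real.exp_zero]
    have h4 : a * T₀ ≤ Real.exp (a * T₀) := by
      have := Real.add_one_le_exp (a * T₀)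
      linarith
    have h5 : 0 < Real.exp (-(a * T₀)) := Real.exp_pos _
    have h6 : Real.exp (-(a * T₀)) * (a * T₀) ≤ 1 := by
      calc Real.exp (-(a * T₀)) * (a * T₀) ≤ Real.exp (-(a * T₀)) * Real.exp (a * T₀) := by
            gcongr
        _ = 1 := h3
    have h7 : 0 < a * T₀ := by positivity
    by_contra hcon
    push Not at hcon
    have h8 : a * (a * T₀) < Real.exp (-(a * T₀)) * (a * T₀) := by gcongr
    nlinarith
  -- the integral
  have h3 : ∫ t in (0 : ℝ)..T₀, φ t ≤ n2 g + K * (CI * (Cb * a ^ (-(1 / 3 : ℝ)) *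
      (1 + L)) * (∑ x, ‖g x‖ ^ (4 / 3 : ℝ)) ^ (3 / 2 : ℝ)) := by
    have h4 : ∫ t in (0 : ℝ)..T₀, φ t = (∫ t in (0 : ℝ)..1, φ t) +
        ∑ k ∈ Finset.range K, ∫ t in (2 : ℝ) ^ k..(2 : ℝ) ^ (k + 1), φ t := by
      rw [intervalIntegral.sum_integral_adjacent_intervals
        (fun k _ => hφc.intervalIntegrable _ _)]
      rw [pow_zero, intervalIntegral.integral_add_adjacent_intervals
        (hφc.intervalIntegrable _ _) (hφc.intervalIntegrable _ _)]
    rw [h4]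
    refine add_le_add ?_ ?_
    · have h5 := intervalIntegral.norm_integral_le_of_norm_le_const (a := 0) (b := 1)
        (C := n2 g) (f := φ) (fun t ht => by
          rw [Set.uIoc_of_le (by norm_num)] at ht
          rw [Real.norm_eq_abs, hφ]
          simp only
          rw [abs_mul, abs_of_pos (Real.exp_pos _)]
          have h6 : Real.exp (-(a * t)) ≤ 1 := by
            rw [Real.exp_le_one_iff]
            have := ht.1
            nlinarith
          calc Real.exp (-(a * t)) * |ph E t g| ≤ 1 * n2 g :=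
                mul_le_mul h6 (ph_abs_le E t g) (abs_nonneg _) zero_le_one
            _ = n2 g := one_mul _)
      have h6 := le_abs_self (∫ t in (0 : ℝ)..1, φ t)
      rw [Real.norm_eq_abs, sub_zero, abs_one, mul_one] at h5
      exact h6.trans h5
    · have h5 : ∀ k ∈ Finset.range K, ∫ t in (2 : ℝ) ^ k..(2 : ℝ) ^ (k + 1), φ t ≤
          CI * (Cb * a ^ (-(1 / 3 : ℝ)) * (1 + L)) *
            (∑ x, ‖g x‖ ^ (4 / 3 : ℝ)) ^ (3 / 2 : ℝ) := by
        intro k hk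
        rw [Finset.mem_range] at hk
        have hk1 : (1 : ℝ) ≤ 2 ^ k := one_le_pow₀ (by norm_num)
        have hk2 : (2 : ℝ) * 2 ^ k ≤ M / 40 := by
          refine le_trans ?_ hK
          rw [← pow_succ', hT₀]
          exact pow_le_pow_right₀ (by norm_num) hk
        have h6 := block hCI hCb hI hk1 (fun y => hb _ y hk1 hk2) E ha g
        have h7 : (2 : ℝ) ^ (k + 1) = 2 * 2 ^ k := pow_succ' _ _
        rw [h7]
        refine (le_abs_self _).trans (h6.trans ?_)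
        have h8 : Real.log (2 ^ k) ≤ L := by
          refine le_trans ?_ hL
          apply Real.log_le_log (by positivity)
          exact pow_le_pow_right₀ (by norm_num) hk.le
        gcongr
      refine (Finset.sum_le_sum h5).trans (le_of_eq ?_)
      rw [Finset.sum_const, Finset.card_range, nsmul_eq_mul]
  have h4 := n2_nonneg g
  have h5 : Real.exp (-(a * T₀)) / a * n2 g ≤ 1 * n2 g := by gcongr
  linarith

theorem sbl (hBkt : BktStmt) (hInt : IntStmt) : SblStmt := by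
  intro d hd
  obtain ⟨Cb, hCb, hb⟩ := hBkt d hd
  obtain ⟨CI, hCI, hI⟩ := hInt
  have hCC : 1 ≤ CI * Cb := one_le_mul_of_one_le_of_one_le hCI hCb
  refine ⟨36 * (80 + 80 * (CI * Cb)), by linarith, fun M _ E η hη hη1 hM => ?_⟩
  set C : ℝ := 80 + 80 * (CI * Cb) with hC
  have hM80 : 80 / η ^ 2 ≤ M := by
    refine le_trans ?_ hM
    gcongr
    linarith
  have hη2 : 0 < η ^ 2 := by positivity
  have hMη : (80 : ℝ) ≤ 80 / η ^ 2 * η ^ 2 := by rw [div_mul_cancel₀ _ hη2.ne']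
  obtain ⟨μ, hμ⟩ : ∃ μ : ℝ, μ = 80 / η ^ 2 := ⟨_, rfl⟩
  rw [← hμ] at hMη hM80
  have hηsq : η ^ 2 ≤ 1 := pow_le_one₀ hη.le hη1
  have hM1 : (80 : ℝ) ≤ μ := by
    have hM0 : (0 : ℝ) ≤ μ := by rw [hμ]; positivity
    nlinarith
  have hlogM : 0 ≤ Real.log μ := Real.log_nonneg (by linarith)
  have hlog2 : (1 : ℝ) / 2 ≤ Real.log 2 := by
    have := Real.log_two_gt_d9
    linarith
  obtain ⟨K, hK1, hK2⟩ := exists_nat_pow_near (x := μ / 40) (y := 2) (by linarith)
    (by norm_num)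
  have hKlog : (K : ℝ) ≤ 2 * Real.log μ := by
    have h1 : Real.log ((2 : ℝ) ^ K) ≤ Real.log μ := by
      apply Real.log_le_log (by positivity)
      linarith
    rw [Real.log_pow] at h1
    have h2 : (0 : ℝ) ≤ K := Nat.cast_nonneg K
    nlinarith
  obtain ⟨n₀, hn1, hn2⟩ := exists_nat_pow_near (x := 1 / η) (y := 2)
    (by rw [le_div_iff₀ hη]; linarith) (by norm_num)
  have hnlog : (n₀ : ℝ) ≤ 2 * Real.log μ := by
    have h0 : 1 / η ≤ μ := by
      rw [div_le_iff₀ hη]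
      nlinarith
    have h1 : Real.log ((2 : ℝ) ^ n₀) ≤ Real.log μ := by
      apply Real.log_le_log (by positivity)
      linarith
    rw [Real.log_pow] at h1
    have h2 : (0 : ℝ) ≤ n₀ := Nat.cast_nonneg n₀
    nlinarith
  have hn : 1 ≤ 2 ^ (n₀ + 1) * η := by
    rw [div_lt_iff₀ hη] at hn2
    exact hn2.le
  have hw1 : 1 ≤ η ^ (-(1 / 3 : ℝ)) := by
    rw [Real.rpow_neg hη.le]
    apply (one_le_inv₀ (by positivity)).2
    exact Real.rpow_le_one hη.le hη1 (by norm_num)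
  apply dual hη (by positivity)
  intro g
  set G : ℝ := (∑ x, ‖g x‖ ^ (4 / 3 : ℝ)) ^ (3 / 2 : ℝ) with hG
  have hG0 : 0 ≤ G := Real.rpow_nonneg (Finset.sum_nonneg fun x _ => by positivity) _
  have hNG : n2 g ≤ G := n2_le g
  have hN0 := n2_nonneg g
  -- one scale
  have h1 : ∀ j : ℕ, pm (fun p => Pool.Agent.Anderson.ker (2 ^ j * η) (es p - E) *
      ‖ft g p‖ ^ 2) ≤ 2 * G + (2 * Real.log μ) * (CI * Cb * (1 + Real.log μ)) * G *
        (η ^ (-(1 / 3 : ℝ)) * (4 / 5) ^ j) := by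
    intro j
    have hj1 : (1 : ℝ) ≤ 2 ^ j := one_le_pow₀ (by norm_num)
    have ha : 0 < 2 ^ j * η := by positivity
    have h2 := scale2 (L := Real.log μ) hCI hCb hI (fun T y => hb M T y) (hK1.trans (by linarith))
      (Real.log_le_log (by positivity) (by linarith)) E ha (by
      have h3 : η ≤ 2 ^ j * η := by nlinarith
      have h4 : η ^ 2 ≤ (2 ^ j * η) ^ 2 := by gcongr
      have h5 : μ / 80 ≤ 2 ^ K := by
        rw [pow_succ] at hK2
        linarith
      calc (1 : ℝ) ≤ η ^ 2 * (μ / 80) := by linarith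
        _ ≤ (2 ^ j * η) ^ 2 * 2 ^ K := by gcongr) g
    refine h2.trans ?_
    rw [← hG]
    have h3 : (2 ^ j * η) ^ (-(1 / 3 : ℝ)) ≤ η ^ (-(1 / 3 : ℝ)) * (4 / 5) ^ j := by
      rw [Real.mul_rpow (by positivity) hη.le, mul_comm]
      have h4 : ((2 : ℝ) ^ j) ^ (-(1 / 3 : ℝ)) ≤ (4 / 5) ^ j := by
        have h5 : ((2 : ℝ) ^ j) ^ (-(1 / 3 : ℝ)) = ((2 : ℝ) ^ (-(1 / 3 : ℝ))) ^ j := by
          rw [← Real.rpow_natCast, ← Real.rpow_mul (by norm_num), mul_comm,
            Real.rpow_mul (by norm_num), Real.rpow_natCast]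
        rw [h5]
        have h6 : (2 : ℝ) ^ (-(1 / 3 : ℝ)) ≤ 4 / 5 := by
          have h7 : (2 : ℝ) ^ (-(1 / 3 : ℝ)) = (1 / 2 : ℝ) ^ (1 / 3 : ℝ) := by
            rw [Real.rpow_neg (by norm_num), ← Real.inv_rpow (by norm_num)]
            congr 1
            norm_num
          rw [h7]
          have h8 : ((4 / 5 : ℝ) ^ 3) ^ (1 / 3 : ℝ) = 4 / 5 := by
            rw [← Real.rpow_natCast, ← Real.rpow_mul (by norm_num)]
            norm_num
          rw [← h8]
          apply Real.rpow_le_rpow (by norm_num) (by norm_num) (by norm_num)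
        gcongr
      gcongr
    have h4 : (0 : ℝ) ≤ K := Nat.cast_nonneg K
    have h5 : (K : ℝ) * (CI * (Cb * (2 ^ j * η) ^ (-(1 / 3 : ℝ)) * (1 + Real.log μ)) * G) ≤
        (2 * Real.log μ) * (CI * (Cb * (η ^ (-(1 / 3 : ℝ)) * (4 / 5) ^ j) *
          (1 + Real.log μ)) * G) := by
      gcongr
    calc 2 * n2 g + K * (CI * (Cb * (2 ^ j * η) ^ (-(1 / 3 : ℝ)) * (1 + Real.log μ)) * G) ≤
        2 * G + (2 * Real.log μ) * (CI * (Cb * (η ^ (-(1 / 3 : ℝ)) * (4 / 5) ^ j) *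
          (1 + Real.log μ)) * G) := by linarith
      _ = _ := by ring
  -- the sum over the scales
  have h2 : pm (fun p => (mt (2 * d - E) η p)⁻¹ * ‖ft g p‖ ^ 2) ≤ n2 g +
      4 * ∑ j ∈ Finset.range (n₀ + 1 + 1), pm (fun p =>
        Pool.Agent.Anderson.ker (2 ^ j * η) (es p - E) * ‖ft g p‖ ^ 2) := by
    have h3 : n2 g + 4 * ∑ j ∈ Finset.range (n₀ + 1 + 1), pm (fun p : Tor d M =>
        Pool.Agent.Anderson.ker (2 ^ j * η) (es p - E) * ‖ft g p‖ ^ 2) =
        pm fun p => (1 + 4 * ∑ j ∈ Finset.range (n₀ + 1 + 1),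
          Pool.Agent.Anderson.ker (2 ^ j * η) (es p - E)) * ‖ft g p‖ ^ 2 := by
      have h4 : n2 g = pm fun p => ‖ft g p‖ ^ 2 := Pool.Agent.LE.IR.H54.parseval1 g
      rw [h4]
      unfold pm
      rw [← Finset.sum_div, ← mul_div_assoc, ← add_div, Finset.sum_comm, Finset.mul_sum,
        ← Finset.sum_add_distrib]
      congr 1
      refine Finset.sum_congr rfl fun p _ => ?_
      rw [← Finset.sum_mul]
      ring
    rw [h3]
    refine pm_mono fun p => ?_
    have h5 := inv_sqrt_le hη hn (es p - E)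
    have h6 : mt (2 * d - E) η p = Real.sqrt ((es p - E) ^ 2 + η ^ 2) := by
      rw [← mt_sq, Real.sqrt_sq (mt_pos E hη p).le]
    rw [h6]
    gcongr
  refine h2.trans ?_
  have h3 : ∑ j ∈ Finset.range (n₀ + 1 + 1), pm (fun p : Tor d M =>
        Pool.Agent.Anderson.ker (2 ^ j * η) (es p - E) * ‖ft g p‖ ^ 2) ≤
      (n₀ + 2) * (2 * G) + (2 * Real.log μ) * (CI * Cb * (1 + Real.log μ)) * G *
        (η ^ (-(1 / 3 : ℝ)) * 5) := by
    refine (Finset.sum_le_sum fun j _ => h1 j).trans ?_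
    rw [Finset.sum_add_distrib, Finset.sum_const, Finset.card_range, nsmul_eq_mul,
      ← Finset.mul_sum, ← Finset.mul_sum]
    have h4 : ∑ j ∈ Finset.range (n₀ + 1 + 1), (4 / 5 : ℝ) ^ j ≤ 5 := by
      have h5 := geom_sum_eq (x := (4 / 5 : ℝ)) (by norm_num) (n₀ + 1 + 1)
      have h6 : (0 : ℝ) < (4 / 5) ^ (n₀ + 1 + 1) := by positivity
      have h7 : ((4 / 5 : ℝ) ^ (n₀ + 1 + 1) - 1) / (4 / 5 - 1) =
          5 * (1 - (4 / 5 : ℝ) ^ (n₀ + 1 + 1)) := by ring
      rw [h5, h7]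
      linarith
    have h5 : (2 * Real.log μ) * (CI * Cb * (1 + Real.log μ)) * G *
        (η ^ (-(1 / 3 : ℝ)) * ∑ j ∈ Finset.range (n₀ + 1 + 1), (4 / 5 : ℝ) ^ j) ≤
        (2 * Real.log μ) * (CI * Cb * (1 + Real.log μ)) * G * (η ^ (-(1 / 3 : ℝ)) * 5) := by
      gcongr
    push_cast
    linarith
  set L : ℝ := Real.log μ with hL
  set w : ℝ := η ^ (-(1 / 3 : ℝ)) with hw
  have h4 : n2 g + 4 * ∑ j ∈ Finset.range (n₀ + 1 + 1), pm (fun p : Tor d M =>
        Pool.Agent.Anderson.ker (2 ^ j * η) (es p - E) * ‖ft g p‖ ^ 2) ≤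
      (1 + 8 * (2 + 2 * L) + 40 * (CI * Cb) * L * (1 + L) * w) * G := by
    have h5 : ((n₀ : ℝ) + 2) * (2 * G) ≤ (2 * L + 2) * (2 * G) := by gcongr
    nlinarith
  refine h4.trans ?_
  have h5 : 1 + 8 * (2 + 2 * L) + 40 * (CI * Cb) * L * (1 + L) * w ≤ C * w * (1 + L) ^ 2 := by
    have hL1 : 1 ≤ (1 + L) := by linarith
    have h6 : 1 + 8 * (2 + 2 * L) ≤ 17 * (w * (1 + L) ^ 2) := by
      have h7 : 1 * (1 + L) ≤ w * (1 + L) ^ 2 := by
        have : 1 + L ≤ (1 + L) ^ 2 := by nlinarith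
        gcongr
      nlinarith
    have h7 : 40 * (CI * Cb) * L * (1 + L) * w ≤ 40 * (CI * Cb) * (w * (1 + L) ^ 2) := by
      have h8 : L * (1 + L) ≤ (1 + L) ^ 2 := by nlinarith
      calc 40 * (CI * Cb) * L * (1 + L) * w = 40 * (CI * Cb) * w * (L * (1 + L)) := by ring
        _ ≤ 40 * (CI * Cb) * w * ((1 + L) ^ 2) := by gcongr
        _ = _ := by ring
    have h8 : 0 ≤ w * (1 + L) ^ 2 := by positivity
    rw [hC]
    nlinarith
  obtain ⟨l, hl⟩ : ∃ l : ℝ, l = Real.log (1 / η) := ⟨_, rfl⟩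
  have hl0 : 0 ≤ l := by
    rw [hl]
    apply Real.log_nonneg
    rw [le_div_iff₀ hη]
    linarith
  have h6 : L ≤ 5 + 2 * l := by
    have e1 : μ = 80 * (1 / η) ^ 2 := by
      rw [hμ]
      field_simp
    have e2 : L = Real.log 80 + 2 * l := by
      rw [hL, e1, Real.log_mul (by norm_num) (by positivity), Real.log_pow, hl]
      norm_num
    have e3 : Real.log 80 ≤ 5 := by
      have e4 : Real.log 80 ≤ Real.log ((2 : ℝ) ^ 7) :=
        Real.log_le_log (by norm_num) (by norm_num)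
      rw [Real.log_pow] at e4
      have e5 := Real.log_two_lt_d9
      push_cast at e4
      linarith
    linarith
  have h7 : (1 + L) ^ 2 ≤ 36 * (1 + l) ^ 2 := by
    have e1 : (1 + L) ^ 2 ≤ (6 * (1 + l)) ^ 2 := by
      apply pow_le_pow_left₀ (by linarith)
      linarith
    linarith [e1, (by ring : (6 * (1 + l)) ^ 2 = 36 * (1 + l) ^ 2)]
  rw [← hl]
  have hC0 : 0 ≤ C * w := by
    rw [hC]
    positivity
  have h8 : C * w * (1 + L) ^ 2 ≤ 36 * C * w * (1 + l) ^ 2 := by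
    calc C * w * (1 + L) ^ 2 ≤ C * w * (36 * (1 + l) ^ 2) := by gcongr
      _ = _ := by ring
  exact mul_le_mul_of_nonneg_right (h5.trans h8) hG0

end Pool.Agent.ANI.H54
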