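import Pool.Agent.ANI.Stmts
import Pool.Agent.Helper63_LQZ.IXU

/-!
# ANI, row SYM: the symbol of the first network, two sided
-/

set_option autoImplicit false

open MeasureTheory ProbabilityTheory Function Filter

open scoped ENNReal BigOperators Topology NNReal ComplexOrder Matrix

noncomputable section

namespace Pool.Agent.ANI.H54

open Pool.Agent.Anderson hiding box mem_box card_box
open Pool.Agent.Loc Pool.Agent.Mob Pool.Agent.Helper54.Bal
  Pool.Agent.Helper96.EXP Pool.Agent.BED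
open Pool.Agent.LE Pool.Agent.LE.MN Pool.Agent.LE.CL Pool.Agent.LE.IR Pool.Agent.LE.QD
  Pool.Agent.LE.QF

variable {d M : ℕ} [NeZero M]

/-- `ds` by characters -/
theorem ds_char (p : Tor d M) :
    ds p = ∑ j, ‖(1 : ℂ) - (ZMod.stdAddChar (p j) : ℂ)‖ ^ 2 := by
  have h1 := QD.H51.es_eq p
  unfold es at h1
  have h2 : ∀ j, ‖(1 : ℂ) - (ZMod.stdAddChar (p j) : ℂ)‖ ^ 2 =
      2 - 2 * (ZMod.stdAddChar (p j) : ℂ).re := by
    intro j
    rw [← Complex.normSq_eq_norm_sq, Complex.normSq_sub, Complex.normSq_eq_norm_sq,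
      Complex.normSq_eq_norm_sq, QD.H51.chi_norm]
    simp
    ring
  rw [Finset.sum_congr rfl fun j _ => h2 j, Finset.sum_sub_distrib, ← h1]
  simp
  ring

/-- the change of the symbol by a shift -/
theorem es_shift (k p : Tor d M) : |es k - es (k + p)| ≤ Real.sqrt (4 * d * ds p) := by
  apply Real.le_sqrt_of_sq_le
  rw [sq_abs, QD.H51.es_eq, QD.H51.es_eq, ← Finset.sum_sub_distrib]
  have h1 : ∀ j, (2 * (ZMod.stdAddChar (k j) : ℂ).re -
      2 * (ZMod.stdAddChar ((k + p : Tor d M) j) : ℂ).re) ^ 2 ≤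
      4 * ‖(1 : ℂ) - (ZMod.stdAddChar (p j) : ℂ)‖ ^ 2 := by
    intro j
    have e1 : (ZMod.stdAddChar ((k + p : Tor d M) j) : ℂ) =
        ZMod.stdAddChar (k j) * ZMod.stdAddChar (p j) := by
      rw [Pi.add_apply, AddChar.map_add_eq_mul]
    have e2 : 2 * (ZMod.stdAddChar (k j) : ℂ).re -
        2 * (ZMod.stdAddChar ((k + p : Tor d M) j) : ℂ).re =
        2 * ((ZMod.stdAddChar (k j) : ℂ) * (1 - ZMod.stdAddChar (p j))).re := by
      rw [e1, mul_sub, mul_one, Complex.sub_re]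
      ring
    have e3 := Complex.abs_re_le_norm ((ZMod.stdAddChar (k j) : ℂ) * (1 - ZMod.stdAddChar (p j)))
    rw [norm_mul, QD.H51.chi_norm, one_mul] at e3
    have e4 := pow_le_pow_left₀ (abs_nonneg _) e3 2
    rw [sq_abs] at e4
    rw [e2, mul_pow]
    linarith only [e4]
  calc (∑ j, (2 * (ZMod.stdAddChar (k j) : ℂ).re -
        2 * (ZMod.stdAddChar ((k + p : Tor d M) j) : ℂ).re)) ^ 2
      ≤ (Finset.univ : Finset (Fin d)).card * ∑ j, (2 * (ZMod.stdAddChar (k j) : ℂ).re -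
        2 * (ZMod.stdAddChar ((k + p : Tor d M) j) : ℂ).re) ^ 2 := sq_sum_le_card_mul_sum_sq
    _ ≤ (Finset.univ : Finset (Fin d)).card *
        ∑ j, 4 * ‖(1 : ℂ) - (ZMod.stdAddChar (p j) : ℂ)‖ ^ 2 :=
        mul_le_mul_of_nonneg_left (Finset.sum_le_sum fun j _ => h1 j) (Nat.cast_nonneg _)
    _ = 4 * d * ds p := by
        rw [← Finset.mul_sum, ← ds_char, Finset.card_univ, Fintype.card_fin]
        ring

theorem ds_nn (p : Tor d M) : 0 ≤ ds p := by
  rw [ds_char]
  exact Finset.sum_nonneg fun _ _ => by positivity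

theorem kf_abs (ζ : ℂ) (p : Tor d M) : |kf ζ p| ≤ kf ζ (0 : Tor d M) := by
  unfold kf
  refine (Finset.abs_sum_le_sum_abs _ _).trans (Finset.sum_le_sum fun x _ => ?_)
  rw [abs_mul, QF.H49.ec_zero, Complex.one_re, mul_one]
  have h0 : 0 ≤ kk ζ x := by
    unfold kk
    positivity
  rw [abs_of_nonneg h0]
  have h1 := Complex.abs_re_le_norm (ec p x)
  rw [IR.H54.ec_norm] at h1
  exact mul_le_of_le_one_right h0 h1

theorem min_frac {x : ℝ} (hx : 0 ≤ x) : x / (1 + x) ≤ min 1 x := by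
  apply le_min
  · rw [div_le_one (by positivity)]
    linarith only
  · exact div_le_self hx (by linarith only [hx])

/-- `1 + log (1/w) ≤ 4 w^(-1/4)` -/
theorem log_quarter {w : ℝ} (hw : 0 < w) :
    (1 + Real.log (1 / w)) * Real.sqrt w ≤ 4 * w ^ ((1 : ℝ) / 4) := by
  have h1 : Real.log (1 / w) = 4 * Real.log ((1 / w) ^ ((1 : ℝ) / 4)) := by
    rw [Real.log_rpow (by positivity)]
    ring
  have h2 := Real.log_le_sub_one_of_pos (show 0 < (1 / w) ^ ((1 : ℝ) / 4) by positivity)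
  have h3 : 1 + Real.log (1 / w) ≤ 4 * (1 / w) ^ ((1 : ℝ) / 4) := by
    rw [h1]
    linarith only [h2]
  calc (1 + Real.log (1 / w)) * Real.sqrt w ≤ 4 * (1 / w) ^ ((1 : ℝ) / 4) * Real.sqrt w :=
        mul_le_mul_of_nonneg_right h3 (Real.sqrt_nonneg _)
    _ = 4 * w ^ ((1 : ℝ) / 4) := by
        rw [one_div, Real.inv_rpow hw.le, ← Real.rpow_neg hw.le, Real.sqrt_eq_rpow, mul_assoc,
          ← Real.rpow_add hw]
        norm_num

/-- the sine of a large momentum -/
theorem sin_big {n : ℤ} (hn : (M : ℝ) < 8 * |(n : ℝ)|) (hn2 : 2 * |(n : ℝ)| ≤ M) :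
    1 / 4 ≤ |Real.sin (Real.pi * (n : ℝ) / M)| := by
  have hM : (0 : ℝ) < M := Nat.cast_pos.2 (Nat.pos_of_ne_zero (NeZero.ne M))
  have hpi := Real.pi_pos
  have h1 : |Real.sin (Real.pi * (n : ℝ) / M)| = |Real.sin (Real.pi * |(n : ℝ)| / M)| := by
    rcases abs_choice (n : ℝ) with h | h
    · rw [h]
    · rw [h, mul_neg, neg_div, Real.sin_neg, abs_neg]
  rw [h1]
  have h2 : 0 ≤ Real.pi * |(n : ℝ)| / M := by positivity
  have h3 : Real.pi * |(n : ℝ)| / M ≤ Real.pi / 2 := by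
    rw [div_le_iff₀ hM]
    nlinarith only [hn2, hpi]
  have h4 := Real.mul_le_sin h2 h3
  refine le_trans ?_ (le_abs_self _)
  refine le_trans ?_ h4
  have h5 : 2 / Real.pi * (Real.pi * |(n : ℝ)| / M) = 2 * |(n : ℝ)| / M := by
    field_simp
  rw [h5, le_div_iff₀ hM]
  linarith only [hn]

theorem sym (gal : GalStmt) (khb : KhbStmt) (kft : KftStmt) : SymStmt := by
  intro d a b hd ha hb
  obtain ⟨c₁, C₁, hc₁, hc₁', hC₁, hgal⟩ := gal d a hd ha
  obtain ⟨C₂, hC₂, hkhb⟩ := khb d hd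
  have hC₂0 : 0 < C₂ := lt_of_lt_of_le one_pos hC₂
  obtain ⟨w₀, hw₀⟩ : ∃ w₀ : ℝ, w₀ = (b / (16 * C₂)) ^ 4 := ⟨_, rfl⟩
  have hw₀0 : 0 < w₀ := by rw [hw₀]; positivity
  obtain ⟨c, hc⟩ : ∃ c, c = min c₁ w₀ := ⟨_, rfl⟩
  obtain ⟨C, hC⟩ : ∃ C : ℝ, C = C₁ + C₂ + 4 * d := ⟨_, rfl⟩
  have hc0 : 0 < c := by rw [hc]; positivity
  have hcc₁ : c ≤ c₁ := by rw [hc]; exact min_le_left _ _
  have hcw₀ : c ≤ w₀ := by rw [hc]; exact min_le_right _ _
  have hd1 : (1 : ℝ) ≤ d := by
    have : 1 ≤ d := by omega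
    exact_mod_cast this
  refine ⟨c, C, hc0, hcc₁.trans hc₁', by rw [hC]; linarith only [hC₁, hC₂, hd1], ?_⟩
  intro M _ ζ hre hw0 hwc hM hb' p
  obtain ⟨w, hw⟩ : ∃ w, w = ζ.im := ⟨_, rfl⟩
  rw [← hw] at hw0 hwc hM hb' ⊢
  have hM0 : (0 : ℝ) < M := Nat.cast_pos.2 (Nat.pos_of_ne_zero (NeZero.ne M))
  have hds := ds_nn p
  have hk0 : 0 < kf ζ (0 : Tor d M) := by
    have : 0 < w * kf ζ (0 : Tor d M) := lt_of_lt_of_le hb hb'
    exact (mul_pos_iff_of_pos_left hw0).1 this
  obtain ⟨x, hx⟩ : ∃ x, x = ds p / w ^ 2 := ⟨_, rfl⟩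
  have hx0 : 0 ≤ x := by rw [hx]; positivity
  have hfrac : ds p / (w ^ 2 + ds p) = x / (1 + x) := by
    have h1 : w ^ 2 ≠ 0 := by positivity
    have h2 : w ^ 2 + ds p ≠ 0 := by positivity
    have h3 : 1 + ds p / w ^ 2 ≠ 0 := by positivity
    rw [hx]
    field_simp
  rw [hfrac]
  have hfr1 : x / (1 + x) ≤ 1 := (min_frac hx0).trans (min_le_left _ _)
  have hfr0 : 0 ≤ x / (1 + x) := by positivity
  constructor
  · -- the lower bound
    by_cases hp : ∀ i, 8 * |((p i).valMinAbs : ℝ)| ≤ M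
    · have hMC : C₁ / ζ.im ≤ M := by
        rw [← hw]
        refine le_trans ?_ hM
        rw [div_le_div_iff₀ hw0 (by positivity)]
        have hC₁C : C₁ ≤ C := by rw [hC]; linarith only [hC₂, hd1]
        have hw1 : w ≤ 1 := by linarith only [hwc, hcc₁, hc₁']
        calc C₁ * w ^ 2 = C₁ * w * w := by ring
          _ ≤ C * w * 1 := by
              have hC0 : 0 ≤ C := by linarith only [hC₁C, hC₁]
              apply mul_le_mul _ hw1 hw0.le (mul_nonneg hC0 hw0.le)
              exact mul_le_mul_of_nonneg_right hC₁C hw0.le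
          _ = C * w := mul_one _
      have h1 := hgal M ζ p hre (by rw [← hw]; exact hw0) (by rw [← hw]; exact hwc.trans hcc₁) hMC hp
      rw [← hw, ← hx] at h1
      have h2 : c * (x / (1 + x)) ≤ c₁ * min 1 x :=
        mul_le_mul hcc₁ (min_frac hx0) hfr0 hc₁.le
      have h3 := mul_le_mul_of_nonneg_right h2 hk0.le
      linarith only [h1, h3]
    · push Not at hp
      obtain ⟨i, hi⟩ := hp
      have hM2 : C₂ / ζ.im ^ 2 ≤ M := by
        rw [← hw]
        refine le_trans ?_ hM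
        apply div_le_div_of_nonneg_right _ (by positivity)
        rw [hC]
        linarith only [hC₁, hd1]
      have hw12 : w ≤ 1 / 2 := by linarith only [hwc, hcc₁, hc₁']
      have h1 := (hkhb M ζ p i (by rw [← hw]; exact hw0) (by rw [← hw]; exact hw12) hM2).1
      rw [← hw] at h1
      have hval : 2 * |(((p i).valMinAbs : ℤ) : ℝ)| ≤ M := by
        have h2 := ZMod.natAbs_valMinAbs_le (p i)
        have h3 : 2 * (p i).valMinAbs.natAbs ≤ M := by omega
        have h4 : ((2 * (p i).valMinAbs.natAbs : ℕ) : ℝ) ≤ M := by exact_mod_cast h3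
        rw [Nat.cast_mul, Nat.cast_natAbs, Int.cast_abs] at h4
        exact_mod_cast h4
      have h2 := sin_big (M := M) hi hval
      have h3 : Real.sqrt (w / (w + |Real.sin (Real.pi * ((p i).valMinAbs : ℝ) / M)|)) ≤
          2 * Real.sqrt w := by
        have h4 : w / (w + |Real.sin (Real.pi * ((p i).valMinAbs : ℝ) / M)|) ≤ 4 * w := by
          rw [div_le_iff₀ (by positivity)]
          nlinarith only [hw0, h2]
        have h5 := Real.sqrt_le_sqrt h4
        have h6 : Real.sqrt (4 * w) = 2 * Real.sqrt w := by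
          rw [Real.sqrt_mul (by norm_num)]
          norm_num
        rw [h6] at h5
        exact h5
      have hlog : 0 ≤ 1 + Real.log (1 / w) := by
        have : 0 ≤ Real.log (1 / w) := Real.log_nonneg (by
          rw [le_div_iff₀ hw0]
          linarith only [hw12])
        linarith only [this]
      have h4 : ‖kh ζ p‖ ≤ C₂ * (1 + Real.log (1 / w)) / w * (2 * Real.sqrt w) :=
        h1.trans (mul_le_mul_of_nonneg_left h3 (by positivity))
      have h5 := log_quarter hw0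
      have h6 : w ^ ((1 : ℝ) / 4) ≤ b / (16 * C₂) := by
        have h7 : w ≤ (b / (16 * C₂)) ^ 4 := by rw [← hw₀]; exact hwc.trans hcw₀
        calc w ^ ((1 : ℝ) / 4) ≤ ((b / (16 * C₂)) ^ 4) ^ ((1 : ℝ) / 4) :=
              Real.rpow_le_rpow hw0.le h7 (by norm_num)
          _ = b / (16 * C₂) := by
              rw [← Real.rpow_natCast, ← Real.rpow_mul (by positivity)]
              norm_num
      have h7 : ‖kh ζ p‖ ≤ b / 2 / w := by
        refine h4.trans ?_
        have e1 : C₂ * (1 + Real.log (1 / w)) / w * (2 * Real.sqrt w) =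
            2 * C₂ * ((1 + Real.log (1 / w)) * Real.sqrt w) / w := by ring
        rw [e1]
        apply div_le_div_of_nonneg_right _ hw0.le
        calc 2 * C₂ * ((1 + Real.log (1 / w)) * Real.sqrt w)
            ≤ 2 * C₂ * (4 * w ^ ((1 : ℝ) / 4)) := mul_le_mul_of_nonneg_left h5 (by positivity)
          _ ≤ 2 * C₂ * (4 * (b / (16 * C₂))) :=
              mul_le_mul_of_nonneg_left (mul_le_mul_of_nonneg_left h6 (by norm_num)) (by positivity)
          _ = b / 2 := by
              have := hC₂0.ne'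
              field_simp
              ring
      have h8 : kf ζ p ≤ b / 2 / w := by
        rw [(kft d M ζ (by rw [← hw]; exact hw0)).1 p]
        exact ((le_abs_self _).trans (Complex.abs_re_le_norm _)).trans h7
      have h9 : b / 2 / w ≤ kf ζ (0 : Tor d M) / 2 := by
        rw [div_le_iff₀ hw0]
        linarith only [hb']
      have h10 : c * (x / (1 + x)) ≤ 1 / 2 := by
        have h11 : c ≤ 1 / 2 := hcc₁.trans hc₁'
        calc c * (x / (1 + x)) ≤ 1 / 2 * 1 := mul_le_mul h11 hfr1 hfr0 (by norm_num)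
          _ = 1 / 2 := mul_one _
      have h11 := mul_le_mul_of_nonneg_right h10 hk0.le
      linarith only [h8, h9, h11]
  · -- the upper bound
    have h1 := Pool.Agent.LE.QZ.H63.kf_sub (M := M) kft (by rw [← hw]; exact hw0) p
      (fun k => es_shift k p)
    rw [← hw, div_pow, Real.sq_sqrt (by positivity)] at h1
    have h2 : 4 * (d : ℝ) * ds p / w ^ 2 / 2 = 2 * d * x := by
      rw [hx]
      ring
    rw [h2] at h1
    have h3 : kf ζ (0 : Tor d M) - kf ζ p ≤ 2 * kf ζ (0 : Tor d M) := by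
      have := (abs_le.1 (kf_abs ζ p)).1
      linarith only [this]
    have hCd : 4 * (d : ℝ) ≤ C := by rw [hC]; linarith only [hC₁, hC₂]
    have h4 : 4 * (d : ℝ) * (x / (1 + x)) ≤ C * (x / (1 + x)) :=
      mul_le_mul_of_nonneg_right hCd hfr0
    have h5 := mul_le_mul_of_nonneg_right h4 hk0.le
    refine le_trans ?_ h5
    by_cases hx1 : x ≤ 1
    · refine h1.trans (mul_le_mul_of_nonneg_right ?_ hk0.le)
      have h6 : x / 2 ≤ x / (1 + x) :=
        div_le_div_of_nonneg_left hx0 (by positivity) (by linarith only [hx1])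
      nlinarith only [h6, hd1]
    · push Not at hx1
      refine h3.trans (mul_le_mul_of_nonneg_right ?_ hk0.le)
      have h6 : 1 / 2 ≤ x / (1 + x) := by
        rw [div_le_div_iff₀ (by norm_num) (by positivity)]
        linarith only [hx1]
      nlinarith only [h6, hd1]

end Pool.Agent.ANI.H54
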