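import Pool.Agent.Helper54_ANI.STB
import Pool.Agent.Helper54_ANI.SYM
import Pool.Agent.Helper54_ANI.SBL
import Pool.Agent.Helper54_ANI.LAM
import Pool.Agent.Helper77_ANI.SMT
import Pool.Agent.Helper21_ANI.PRD
import Pool.Agent.Helper72_ANI.SYF
import Pool.Agent.Helper31_ANI.WHT
import Pool.Agent.Helper13_ANI.WHM
import Pool.Agent.Helper15_ANI.STA
import Pool.Agent.Helper96_ANI.SLB
import Pool.Agent.Helper54_LIR.FTB
import Pool.Agent.Helper45_LQD.BES
import Pool.Agent.Helper90_LQD.BE2
import Pool.Agent.Helper89_LQD.TOR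
import Pool.Agent.Helper46_LQD.BKT
import Pool.Agent.Helper82_LQD.INT
import Pool.Agent.Helper70_LQD.SOB
import Pool.Agent.Helper38_LQD.DSU
import Pool.Agent.Helper69_LQD.DSL
import Pool.Agent.Helper76_LQD.RAL
import Pool.Agent.Helper51_LQD.GAP
import Pool.Agent.Helper69_LQF.FMU
import Pool.Agent.Helper49_LQF.KFT
import Pool.Agent.Helper17_LQF.LOW
import Pool.Agent.Helper32_LQF.JCB
import Pool.Agent.Helper8_LQF.KHB
import Pool.Agent.Helper94_LQF.GAL
import Pool.Agent.Helper88_LQF.FRB
import Pool.Agent.Helper68_LQF.MBR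

/-!
# Block I0 of AND2B: assembly
-/

set_option autoImplicit false

open MeasureTheory ProbabilityTheory

noncomputable section

namespace Pool.Agent.ANI.H54

open Pool.Agent.LE Pool.Agent.LE.CL Pool.Agent.LE.IR Pool.Agent.LE.QD Pool.Agent.LE.QF

theorem ralT : RalStmt := QD.H76.ral IR.H54.ftb

theorem bktT : BktStmt := QD.H46.bkt QD.H45.bes QD.H90.be2 QD.H89.tor

theorem kftT : KftStmt := QF.H49.kft ralT QF.H69.fmu IR.H54.ftb

theorem khbT : KhbStmt := QF.H8.khb QF.H32.jcb

theorem gapT : GapStmt := QD.H51.gap ralT QD.H38.dsu QD.H69.dsl IR.H54.ftb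

theorem galT : GalStmt := QF.H94.gal gapT QD.H69.dsl QD.H38.dsu ralT IR.H54.ftb

theorem frbT : FrbStmt := QF.H88.frb bktT (QD.H70.sob bktT QD.H82.int) QD.H38.dsu ralT

theorem mbrT : MbrStmt := QF.H68.mbr QD.H69.dsl QD.H38.dsu khbT ralT

theorem sblT : SblStmt := sbl bktT QD.H82.int

theorem lamT : LamStmt := lam sblT QD.H38.dsu ralT

theorem prdT : PrdStmt := H21.prd H77.smt bktT ralT frbT

theorem symT : SymStmt := sym galT khbT kftT

theorem syfT : SyfStmt := H72.syf QF.H69.fmu kftT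

theorem whtT : WhtStmt := H31.wht QF.H17.low_ kftT

theorem whmT : WhmStmt := H13.whm QF.H69.fmu kftT

theorem staT : StaStmt := H15.sta mbrT ralT frbT kftT khbT lamT prdT symT syfT whtT whmT

/-- the start, up to the sharp lower bound of the symbol -/
theorem stbOf (slb : SlbStmt) : StbStmt := stb staT ralT kftT khbT symT slb

theorem slbT : SlbStmt := H96.slb QF.H69.fmu kftT

/-- THE START: a good initial state exists -/
theorem stbT : StbStmt := stbOf slbT

end Pool.Agent.ANI.H54
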