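import Pool.Agent.ANI.Stmts2
import Pool.Agent.Helper15_ANI.STA

/-! STB: the initial state, final form -/

set_option autoImplicit false

open MeasureTheory ProbabilityTheory Function Filter

open scoped ENNReal BigOperators Topology NNReal ComplexOrder Matrix

noncomputable section

namespace Pool.Agent.ANI.H54

open Pool.Agent.Anderson hiding box mem_box card_box
open Pool.Agent.Loc Pool.Agent.Mob Pool.Agent.Helper54.Bal
  Pool.Agent.Helper96.EXP Pool.Agent.BED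
open Pool.Agent.LE Pool.Agent.LE.MN Pool.Agent.LE.CL Pool.Agent.LE.IR Pool.Agent.LE.QD
  Pool.Agent.LE.QF Pool.Agent.ANI.H15

/-- `T |∑ G₀²|` -/
theorem hb_aux (khb : KhbStmt) {d : ℕ} (hd : 3 ≤ d) (b ε : ℝ) (hb : 0 < b) (hε : 0 < ε) :
    ∃ c C : ℝ, 0 < c ∧ 1 ≤ C ∧ ∀ (M : ℕ) [NeZero M] (T : ℝ) (ζ : ℂ), 0 < T → T ≤ c →
      b * T ≤ ζ.im → ζ.im ≤ 1 / 2 → C / ζ.im ^ 2 ≤ M →
      ‖bh ζ (0 : Tor d M)‖ ≤ T ^ (-(1 / 2 + ε)) := by
  obtain ⟨CK, hCK, khb⟩ := khb d hd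
  obtain ⟨t₂, ht₂, num2⟩ := num CK b (1 / 2) ε 1 (by linarith) hb (by norm_num) hε le_rfl
  refine ⟨t₂, CK, ht₂, hCK, fun M _ T ζ hT hTc hbT hw2 hM => ?_⟩
  have hw0 : 0 < ζ.im := lt_of_lt_of_le (by positivity) hbT
  obtain ⟨w, hw⟩ : ∃ w : ℝ, w = ζ.im := ⟨_, rfl⟩
  have i0 : Fin d := ⟨0, by linarith⟩
  have h2 := (khb M ζ (0 : Tor d M) i0 hw0 hw2 hM).2
  have h3 : |Real.cos (Real.pi * (((0 : Tor d M) i0).valMinAbs : ℝ) / M)| = 1 := by
    simp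
  rw [h3, ← hw] at h2
  rw [← hw] at hw0 hw2 hbT
  have h4 : Real.sqrt (w / (w + 1)) ≤ w ^ (1 / 2 : ℝ) := by
    rw [← Real.sqrt_eq_rpow]
    apply Real.sqrt_le_sqrt
    rw [div_le_iff₀ (by linarith)]
    nlinarith
  have hl0 : 0 ≤ Real.log (1 / w) := Real.log_nonneg (by rw [le_div_iff₀ hw0]; linarith)
  refine h2.trans (le_trans ?_ (num2 T w hT hTc hbT (by linarith)))
  calc CK * (1 + Real.log (1 / w)) / w * Real.sqrt (w / (w + 1))
      ≤ CK * (1 + Real.log (1 / w)) / w * w ^ (1 / 2 : ℝ) := by gcongr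
    _ = CK * w ^ (-(1 / 2) : ℝ) * (1 + Real.log (1 / w)) ^ 1 := by
        have h6 : w ^ (-(1 / 2) : ℝ) = w ^ (1 / 2 : ℝ) / w := by
          rw [← Real.rpow_sub_one hw0.ne']
          norm_num
        rw [h6, pow_one]
        ring

theorem stb (sta : StaStmt) (ral : RalStmt) (kft : KftStmt) (khb : KhbStmt) (sym : SymStmt)
    (slb : SlbStmt) : StbStmt := by
  intro d a ε hd ha hε hε1
  obtain ⟨c₀, C₀, hc₀, hc₀', hC₀, sta⟩ := sta d a ε hd ha hε (by linarith)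
  obtain ⟨b, hb, hbc, hbC⟩ : ∃ b : ℝ, 0 < b ∧ b ≤ c₀ ∧ b ≤ 1 / C₀ :=
    ⟨min c₀ (1 / C₀), lt_min hc₀ (by positivity), min_le_left _ _, min_le_right _ _⟩
  have hb1 : b ≤ 1 / 2 := hbc.trans hc₀'
  have hbC' : C₀ ≤ 1 / b := by
    rw [le_div_iff₀ hb, mul_comm]
    rwa [le_div_iff₀ (by linarith)] at hbC
  obtain ⟨cS, CS, hcS, hcS', hCS, sym⟩ := sym d (a / 2) b hd (by positivity) hb
  obtain ⟨c₂, C₂, hc₂, hC₂, hbh⟩ := hb_aux khb hd b ε hb hε
  obtain ⟨CK, hCK, khb⟩ := khb d hd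
  obtain ⟨cB, hcB, hcB', slb⟩ := slb d b ε cS CK hd hb hε hε1 hcS hCK
  obtain ⟨c, hc, k0, k1, k2, k3, k4, k5⟩ : ∃ c : ℝ, 0 < c ∧ c ≤ c₀ ∧ c ≤ cB ∧ c ≤ c₂ ∧
      c * C₀ ≤ a / 2 ∧ c * (1 + C₀) ≤ cS ∧ c * (1 + C₀) ≤ 1 / 2 := by
    refine ⟨min (min c₀ (min cB c₂)) (min (a / 2 / C₀) (min (cS / (1 + C₀)) (1 / 2 / (1 + C₀)))),
      ?_, ?_, ?_, ?_, ?_, ?_, ?_⟩
    · have h1 : 0 < a / 2 / C₀ := by positivity
      have h2 : 0 < cS / (1 + C₀) := by positivity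
      have h3 : 0 < 1 / 2 / (1 + C₀) := by positivity
      exact lt_min (lt_min hc₀ (lt_min hcB hc₂)) (lt_min h1 (lt_min h2 h3))
    · exact (min_le_left _ _).trans (min_le_left _ _)
    · exact (min_le_left _ _).trans ((min_le_right _ _).trans (min_le_left _ _))
    · exact (min_le_left _ _).trans ((min_le_right _ _).trans (min_le_right _ _))
    · rw [← le_div_iff₀ (by linarith)]
      exact (min_le_right _ _).trans (min_le_left _ _)
    · rw [← le_div_iff₀ (by linarith)]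
      exact (min_le_right _ _).trans ((min_le_right _ _).trans (min_le_left _ _))
    · rw [← le_div_iff₀ (by linarith)]
      exact (min_le_right _ _).trans ((min_le_right _ _).trans (min_le_right _ _))
  obtain ⟨C, hC, l1, l2, l3, l4⟩ : ∃ C : ℝ, 1 ≤ C ∧ C₀ ≤ C ∧ CS / b ^ 2 ≤ C ∧ C₂ / b ^ 2 ≤ C ∧
      CK / b ^ 2 ≤ C := by
    have h0 : 0 < b ^ 2 := by positivity
    have h1 : 0 ≤ CS / b ^ 2 := by positivity
    have h2 : 0 ≤ C₂ / b ^ 2 := by positivity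
    have h3 : 0 ≤ CK / b ^ 2 := by positivity
    exact ⟨C₀ + CS / b ^ 2 + C₂ / b ^ 2 + CK / b ^ 2, by linarith, by linarith, by linarith,
      by linarith, by linarith⟩
  refine ⟨c, C, hc, k0.trans hc₀', hC, fun M _ E η T hE hη hηT hTc hM => ?_⟩
  have hT : 0 < T := hη.trans_le hηT
  have hT2 : 0 < T ^ 2 := by positivity
  obtain ⟨m, ζ, hs⟩ := sta M E η T hE hη hηT (hTc.trans k0)
    ((div_le_div_of_nonneg_right l1 hT2.le).trans hM)
  refine ⟨m, ζ, ?_⟩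
  have hm1 : b ≤ m.im := hbc.trans hs.hc.1
  have hmC : m.im ≤ C₀ := (le_abs_self _).trans ((Complex.abs_im_le_norm m).trans hs.hc.2)
  have hm2 : m.im ≤ 1 / b := hmC.trans hbC'
  have him : ζ.im = η + T * m.im := by
    rw [hs.hz]
    simp
  have hre : ζ.re = E + T * m.re := by
    rw [hs.hz]
    simp
  have hw0 : 0 < ζ.im := by
    rw [him]
    have : 0 < m.im := hb.trans_le hm1
    positivity
  have hwl : b * T ≤ ζ.im := by
    rw [him]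
    nlinarith
  have hwu : ζ.im ≤ T * (1 + C₀) := by
    rw [him]
    nlinarith
  have hwc : ζ.im ≤ c * (1 + C₀) := hwu.trans (by gcongr)
  have hMw : ∀ X : ℝ, 0 ≤ X → X / b ^ 2 ≤ C → X / ζ.im ^ 2 ≤ M := by
    intro X hX0 hX
    refine le_trans ?_ hM
    calc X / ζ.im ^ 2 ≤ X / (b * T) ^ 2 := by gcongr
      _ = X / b ^ 2 / T ^ 2 := by
          field_simp
      _ ≤ C / T ^ 2 := by gcongr
  have hre2 : |ζ.re| ≤ 2 * d - a / 2 := by
    rw [hre]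
    have h1 : |E + T * m.re| ≤ |E| + |T * m.re| := abs_add_le _ _
    have h2 : |T * m.re| ≤ a / 2 := by
      rw [abs_mul, abs_of_pos hT]
      have h3 := (Complex.abs_re_le_norm m).trans hs.hc.2
      calc T * |m.re| ≤ c * C₀ := by gcongr
        _ ≤ a / 2 := k3
    linarith
  obtain ⟨f1, -, -, -, -, f6⟩ := kft d M ζ hw0
  have hkf : kf ζ (0 : Tor d M) = m.im / ζ.im := by
    rw [f6, hs.hm]
  have hsym := sym M ζ hre2 hw0 (hwc.trans k4) (hMw CS (by linarith) l2) (by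
    rw [hkf, mul_div_cancel₀ _ hw0.ne']
    exact hm1)
  have hkk : ∀ (p : Tor d M) (i : Fin d), |kf ζ p| ≤ CK * (1 + Real.log (1 / ζ.im)) / ζ.im *
      Real.sqrt (ζ.im / (ζ.im + |Real.sin (Real.pi * ((p i).valMinAbs : ℝ) / M)|)) := by
    intro p i
    rw [f1]
    exact (Complex.abs_re_le_norm _).trans
      (khb M ζ p i hw0 (hwc.trans k5) (hMw CK (by linarith) l4)).1
  have hbh' := hbh M T ζ hT (hTc.trans k2) hwl (hwc.trans k5) (hMw C₂ (by linarith) l3)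
  have hST : Start d M E η T ε m ζ c C := by
    refine ⟨hs.hz, hs.hm, ⟨k0.trans hs.hc.1, hs.hc.2.trans l1⟩, fun x y => (hs.hG x y).trans l1,
      fun x y i => (hs.hp x y i).trans (by gcongr), hs.hk, hs.hL, hs.hT, fun f => ?_,
      fun s hs0 hsT => ?_⟩
    · obtain ⟨⟨h, hh⟩, hu⟩ := hs.hF f
      have e1 : ∀ h : Tor d M → ℝ, 0 ≤ ∑ x, (f x - h x) ^ 2 +
          (∑ x, ∑ i, (h (x + Pi.single i 1) - h x) ^ 2) / T ^ 2 := fun h =>
        add_nonneg (Finset.sum_nonneg fun _ _ => sq_nonneg _)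
          (div_nonneg (Finset.sum_nonneg fun _ _ => Finset.sum_nonneg fun _ _ => sq_nonneg _)
            hT2.le)
      exact ⟨⟨h, (mul_le_mul_of_nonneg_right k0 (e1 h)).trans hh⟩,
        fun h => (hu h).trans (mul_le_mul_of_nonneg_right l1 (e1 h))⟩
    · obtain ⟨S, g1, g2, g3, g4⟩ := hs.hN s hs0 hsT
      refine ⟨S, g1, g2, fun x => (g3 x).trans ?_, g4⟩
      have e2 : 0 ≤ T ^ (3 / 2 : ℝ) * s ^ (1 / 2 - ε) := by positivity
      have e3 : C₀ * T ^ (3 / 2 : ℝ) * s ^ (1 / 2 - ε) ≤ C * T ^ (3 / 2 : ℝ) * s ^ (1 / 2 - ε) := by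
        gcongr
      have e4 : C₀ / (η * (M : ℝ) ^ d) ≤ C / (η * (M : ℝ) ^ d) := by gcongr
      linarith
  refine ⟨hST, fun x => ?_, fun f => ?_⟩
  · rw [sum_sq ral kft ζ hw0 x]
    calc T * ‖bh ζ (0 : Tor d M)‖ ≤ T * T ^ (-(1 / 2 + ε)) := by gcongr
      _ = T ^ (1 / 2 - ε) := by
          rw [← Real.rpow_one_add' hT.le (by linarith)]
          congr 1
          ring
  · obtain ⟨h, hh⟩ := slb M E η T m ζ hs.hz hη hηT (hTc.trans k1) hm1 hm2 (hs.hm 0)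
      (fun p => (hsym p).1) hkk f
    refine ⟨h, le_trans ?_ hh⟩
    have h2 : 0 ≤ ∑ x, ∑ i, (h (x + Pi.single i 1) - h x) ^ 2 :=
      Finset.sum_nonneg fun _ _ => Finset.sum_nonneg fun _ _ => sq_nonneg _
    have h3 : 0 ≤ T ^ (8 * ε - 1) := Real.rpow_nonneg hT.le _
    have h4 : c * T ^ (8 * ε - 1) * ∑ x, ∑ i, (h (x + Pi.single i 1) - h x) ^ 2 ≤
        cB * T ^ (8 * ε - 1) * ∑ x, ∑ i, (h (x + Pi.single i 1) - h x) ^ 2 := by gcongr
    linarith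

end Pool.Agent.ANI.H54
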